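import Mathlib
import Pool.Agent.LibIR53.R24

/-!
# MP_2cfa8f_nt, Q1: `P_n` is irreducible over the rationals for every sufficiently large `n`
-/

namespace Pool.Agent.Results.MP_2cfa8f_nt.EventuallyIrreducible

open Polynomial

/-- `P_n = ∑_{k ≤ n} binom(2k,k)^2 x^k`. -/
noncomputable def P (n : ℕ) : ℚ[X] :=
  ∑ k ∈ Finset.range (n + 1), C ((Nat.choose (2 * k) k : ℚ) ^ 2) * X ^ k

/-- There are only finitely many `n` for which `P_n` is reducible over the rationals. -/
theorem result : ∃ N : ℕ, ∀ n : ℕ, N ≤ n → Irreducible (P n) :=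
  Pool.Agent.IR53.main_rat

end Pool.Agent.Results.MP_2cfa8f_nt.EventuallyIrreducible
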