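import Pool.Agent.SunPoly.Four

/-!
# MP_2cfa8f_nt: the polynomials with squared central binomial coefficients

If `4 ∣ n`, then the degree of every rational factor of `P_n` is divisible by the full power of `2`
in `n`; if `8 ∣ n`, the same holds for `Q_n`.  In particular `P_n` and `Q_n` are irreducible over
the rationals whenever `n` is a power of `2` (including `n = 1, 2, 4`).
-/

namespace Pool.Agent.Results.MP_2cfa8f_nt.TwoPartOfDegree

open Polynomial Pool.Agent.SunPoly

/-- `P_n = ∑_{k = 0}^n binom(2k, k)^2 x^k` -/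
noncomputable def P (n : ℕ) : ℚ[X] :=
  ∑ k ∈ Finset.range (n + 1), C ((Nat.choose (2 * k) k : ℚ) ^ 2) * X ^ k

/-- `Q_n = ∑_{k = 0}^n binom(2k, k)^2 / (k + 1) x^k` -/
noncomputable def Q (n : ℕ) : ℚ[X] :=
  ∑ k ∈ Finset.range (n + 1), C ((Nat.choose (2 * k) k : ℚ) ^ 2 / ((k : ℚ) + 1)) * X ^ k

theorem natDegree_P (n : ℕ) : (P n).natDegree = n := by
  apply natDegree_sum
  have := Nat.centralBinom_ne_zero n
  rw [Nat.centralBinom_eq_two_mul_choose] at this
  positivity

theorem natDegree_Q (n : ℕ) : (Q n).natDegree = n := by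
  apply natDegree_sum
  have := Nat.centralBinom_ne_zero n
  rw [Nat.centralBinom_eq_two_mul_choose] at this
  positivity

theorem two_part {n a : ℕ} (hn : n ≠ 0) (ha : 2 ^ a ∣ n) : a ≤ padicValNat 2 n ∧
    ∃ u, n = 2 ^ padicValNat 2 n * u ∧ u % 2 = 1 := by
  refine ⟨(padicValNat_dvd_iff_le hn).1 ha, ?_⟩
  obtain ⟨c, hc⟩ := exists_odd n hn
  exact ⟨2 * c + 1, hc, by omega⟩

theorem factor_P (n : ℕ) (hn : n ≠ 0) (h4 : 4 ∣ n) (f : ℚ[X]) (hf : f ∣ P n) :
    2 ^ padicValNat 2 n ∣ f.natDegree := by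
  obtain ⟨ha, u, hu, hu2⟩ := two_part (a := 2) hn h4
  refine natDegree_dvd_rat _ n (fun k => (Nat.choose (2 * k) k : ℚ) ^ 2) (by simp) ?_ f hf
  intro y hy
  exact rootP _ unitP ha hu hu2 y hy

theorem factor_Q (n : ℕ) (hn : n ≠ 0) (h8 : 8 ∣ n) (f : ℚ[X]) (hf : f ∣ Q n) :
    2 ^ padicValNat 2 n ∣ f.natDegree := by
  obtain ⟨ha, u, hu, hu2⟩ := two_part (a := 3) hn h8
  refine natDegree_dvd_rat _ n (fun k => (Nat.choose (2 * k) k : ℚ) ^ 2 / ((k : ℚ) + 1)) (by simp)
    ?_ f hf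
  intro y hy
  exact rootQ _ unitQ ha hu hu2 y hy

theorem irr_P (m : ℕ) : Irreducible (P (2 ^ m)) := by
  rcases Nat.lt_or_ge m 2 with hm | hm
  · interval_cases m
    · apply irreducible_of_degree_eq_one
      exact (degree_eq_iff_natDegree_eq_of_pos one_pos).2 (natDegree_P (2 ^ 0))
    · apply irr_quad
      · rw [natDegree_P]
        rfl
      · intro x
        have h1 : (P (2 ^ 1)).eval x = 1 + 4 * x + 36 * x ^ 2 := by
          simp [P, Finset.sum_range_succ, Nat.choose]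
          norm_num
        rw [h1]
        nlinarith [sq_nonneg (1 + 2 * x), sq_nonneg x]
  · apply irreducible_of_dvd
    · rw [natDegree_P]
      positivity
    · intro f hf
      rw [natDegree_P]
      have h4 : 4 ∣ 2 ^ m := pow_dvd_pow 2 hm
      have := factor_P (2 ^ m) (by positivity) h4 f hf
      rwa [padicValNat.prime_pow] at this

theorem irr_Q (m : ℕ) : Irreducible (Q (2 ^ m)) := by
  rcases Nat.lt_or_ge m 3 with hm | hm
  · interval_cases m
    · apply irreducible_of_degree_eq_one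
      exact (degree_eq_iff_natDegree_eq_of_pos one_pos).2 (natDegree_Q (2 ^ 0))
    · apply irr_quad
      · rw [natDegree_Q]
        rfl
      · intro x
        have h1 : (Q (2 ^ 1)).eval x = 1 + 2 * x + 12 * x ^ 2 := by
          simp [Q, Finset.sum_range_succ, Nat.choose]
          norm_num
        rw [h1]
        nlinarith [sq_nonneg (1 + x), sq_nonneg x]
    · have h1 : Q (2 ^ 2) = C 1 * X ^ 0 + C 2 * X ^ 1 + C 12 * X ^ 2 + C 100 * X ^ 3 +
          C 980 * X ^ 4 := by
        unfold Q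
        norm_num [Finset.sum_range_succ, Nat.choose]
      rw [h1]
      exact irrQ4
  · apply irreducible_of_dvd
    · rw [natDegree_Q]
      positivity
    · intro f hf
      rw [natDegree_Q]
      have h8 : 8 ∣ 2 ^ m := pow_dvd_pow 2 hm
      have := factor_Q (2 ^ m) (by positivity) h8 f hf
      rwa [padicValNat.prime_pow] at this

/-- For `4 ∣ n` (`n ≠ 0`) every rational factor of `P_n` has degree divisible by the full power of
`2` dividing `n`; the same for `Q_n` if `8 ∣ n`; and for every `m ≥ 0` both `P_{2^m}` and `Q_{2^m}`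
are irreducible over `ℚ`. -/
theorem result :
    (∀ n : ℕ, n ≠ 0 → 4 ∣ n → ∀ f : ℚ[X], f ∣ P n → 2 ^ padicValNat 2 n ∣ f.natDegree) ∧
    (∀ n : ℕ, n ≠ 0 → 8 ∣ n → ∀ f : ℚ[X], f ∣ Q n → 2 ^ padicValNat 2 n ∣ f.natDegree) ∧
    (∀ m : ℕ, Irreducible (P (2 ^ m)) ∧ Irreducible (Q (2 ^ m))) :=
  ⟨factor_P, factor_Q, fun m => ⟨irr_P m, irr_Q m⟩⟩

end Pool.Agent.Results.MP_2cfa8f_nt.TwoPartOfDegree
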